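import Pool.Agent.K7.H15.WR.Idx

set_option autoImplicit false

/-!
# Critical multigraphs with multiplicities at most two

Let `zH` be a multigraph with multiplicities at most `2` and degrees at most `q - 1`. If it has no
edge colouring with `q` colours then it has a nonempty set `S` of vertices such that each vertex of
`S` is joined by double edges to two vertices of `S` all of whose neighbours are in `S`.
-/

namespace Pool.Agent.Run7.h680.WR

open Finset Pool.Agent.MPd14d18 Pool.Agent.K7.H15.WR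

variable {W : Type} [Fintype W] [DecidableEq W]

/-- one edge between `x` and `y` less -/
def subE (z : W → W → ℕ) (x y : W) : W → W → ℕ :=
  fun u w => z u w - if (u = x ∧ w = y) ∨ (u = y ∧ w = x) then 1 else 0

omit [Fintype W] in
theorem addE_subE {z : W → W → ℕ} (hs : ∀ u w, z u w = z w u) {x y : W} (hxy : 1 ≤ z x y) :
    addE (subE z x y) x y = z := by
  funext u w
  unfold addE subE
  split_ifs with h
  · have : 1 ≤ z u w := by
      rcases h with ⟨rfl, rfl⟩ | ⟨rfl, rfl⟩
      · exact hxy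
      · rw [hs]; exact hxy
    omega
  · omega

omit [Fintype W] in
theorem subE_comm {z : W → W → ℕ} (hs : ∀ u w, z u w = z w u) (x y : W) (u w : W) :
    subE z x y u w = subE z x y w u := by
  unfold subE
  rw [hs u w]
  congr 1
  have : ((u = x ∧ w = y) ∨ (u = y ∧ w = x)) ↔ ((w = x ∧ u = y) ∨ (w = y ∧ u = x)) := by tauto
  simp only [this]

/-- the degree after the removal of an edge -/
theorem deg_subE {z : W → W → ℕ} (hs : ∀ u w, z u w = z w u) {x y : W} (hne : x ≠ y)
    (hxy : 1 ≤ z x y) (v : W) :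
    (∑ w ∈ univ.erase v, subE z x y v w) + (if v = x ∨ v = y then 1 else 0) =
      ∑ w ∈ univ.erase v, z v w := by
  have h1 : ∀ w ∈ univ.erase v, z v w = subE z x y v w +
      if (v = x ∧ w = y) ∨ (v = y ∧ w = x) then 1 else 0 := by
    intro w _
    have := congrFun (congrFun (addE_subE hs hxy) v) w
    exact this.symm
  rw [Finset.sum_congr rfl h1, Finset.sum_add_distrib]
  congr 1
  by_cases hv : v = x
  · subst hv
    have h2 : ∀ w ∈ univ.erase v, (if (v = v ∧ w = y) ∨ (v = y ∧ w = v) then 1 else 0) =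
        if w = y then 1 else 0 := by
      intro w _
      simp [hne]
    rw [Finset.sum_congr rfl h2, Finset.sum_ite_eq', if_pos (mem_erase.2 ⟨hne.symm, mem_univ _⟩)]
    simp
  · by_cases hv' : v = y
    · subst hv'
      have h2 : ∀ w ∈ univ.erase v, (if (v = x ∧ w = v) ∨ (v = v ∧ w = x) then 1 else 0) =
          if w = x then 1 else 0 := by
        intro w _
        simp [hv]
      rw [Finset.sum_congr rfl h2, Finset.sum_ite_eq', if_pos (mem_erase.2 ⟨hne, mem_univ _⟩)]
      simp
    · simp [hv, hv']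

/-- a critical edge gives two double neighbours of maximal degree -/
theorem two_full {L : Finset ℕ} {z : W → W → ℕ} (hs : ∀ u w, z u w = z w u)
    (h2 : ∀ u w, z u w ≤ 2) (hd : ∀ u, (∑ w ∈ univ.erase u, z u w) + 1 ≤ L.card)
    (hno : ¬ ∃ m, Ok L z m) {x y : W} (hne : x ≠ y) (hxy : 1 ≤ z x y)
    (hcol : ∃ m, Ok L (subE z x y) m) :
    ∃ w1 w2, w1 ≠ w2 ∧ x ≠ w1 ∧ x ≠ w2 ∧ z x w1 = 2 ∧ z x w2 = 2 ∧
      (∑ w ∈ univ.erase w1, z w1 w) + 1 = L.card ∧ (∑ w ∈ univ.erase w2, z w2 w) + 1 = L.card := by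
  classical
  obtain ⟨m, hm⟩ := hcol
  have hNE : NE L (subE z x y) x y := by
    rcases ext_or (L := L) (z := subE z x y) hne with h | h
    · rw [addE_subE hs hxy] at h
      exact absurd h hno
    · exact h
  have hdx := deg_subE hs hne hxy x
  have hdy := deg_subE hs hne hxy y
  rw [if_pos (Or.inl rfl)] at hdx
  rw [if_pos (Or.inr rfl)] at hdy
  obtain ⟨R, hxR, hyR, hR⟩ := count hNE hm (by have := hd x; omega) (by have := hd y; omega)
  have h3 := hR x (Or.inl rfl)
  set F : Finset W := (R.erase x).filter fun w => z x w = 2 ∧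
    (∑ w' ∈ univ.erase w, z w w') + 1 = L.card with hF
  have h4 : ∀ w ∈ R.erase x, subE z x y x w + (if w = y then 2 else 0) ≤
      (L.card - ∑ w' ∈ univ.erase w, subE z x y w w') + (if z x w = 2 ∧
    (∑ w' ∈ univ.erase w, z w w') + 1 = L.card then 1 else 0) := by
    intro w hw
    have hwx := Finset.ne_of_mem_erase hw
    have h5 := deg_subE hs hne hxy w
    have h6 := hd w
    have h7 := h2 x w
    by_cases hwy : w = y
    · have h8 : subE z x y x w = z x w - 1 := by
        unfold subE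
        rw [if_pos (Or.inl ⟨rfl, hwy⟩)]
      rw [if_pos hwy, h8]
      rw [if_pos (Or.inr hwy)] at h5
      have h9 : 1 ≤ z x w := by rw [hwy]; exact hxy
      split_ifs with h10
      · omega
      · have : z x w ≤ 1 ∨ (∑ w' ∈ univ.erase w, z w w') + 2 ≤ L.card := by
          by_contra hcon
          push Not at hcon
          exact h10 ⟨by omega, by omega⟩
        omega
    · have h8 : subE z x y x w = z x w := by
        unfold subE
        rw [if_neg (by rintro (⟨-, h⟩ | ⟨h, -⟩); exact hwy h; exact hne h)]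
        rfl
      rw [if_neg hwy, h8]
      rw [if_neg (by rintro (h | h); exact hwx h; exact hwy h)] at h5
      split_ifs with h10
      · omega
      · have : z x w ≤ 1 ∨ (∑ w' ∈ univ.erase w, z w w') + 2 ≤ L.card := by
          by_contra hcon
          push Not at hcon
          exact h10 ⟨by omega, by omega⟩
        omega
  have h5 := Finset.sum_le_sum h4
  rw [Finset.sum_add_distrib, Finset.sum_add_distrib, Finset.sum_ite_eq',
    if_pos (mem_erase.2 ⟨hne.symm, hyR⟩), ← Finset.card_filter] at h5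
  have h6 : 1 < F.card := by rw [hF]; omega
  obtain ⟨w1, hw1, w2, hw2, h12⟩ := Finset.one_lt_card.1 h6
  rw [hF, mem_filter, mem_erase] at hw1 hw2
  exact ⟨w1, w2, h12, hw1.1.1.symm, hw2.1.1.symm, hw1.2.1, hw2.2.1, hw1.2.2, hw2.2.2⟩

/-- **Critical multigraphs.** -/
theorem crit {L : Finset ℕ} {zH : W → W → ℕ} (hs : ∀ u w, zH u w = zH w u)
    (h0 : ∀ u, zH u u = 0)
    (h2 : ∀ u w, zH u w ≤ 2) (hd : ∀ u, (∑ w ∈ univ.erase u, zH u w) + 1 ≤ L.card)
    (hS : ∀ S : Set W, S.Nonempty → (∀ x ∈ S, ∃ y, zH x y ≠ 0) →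
      (∀ x ∈ S, ∃ w1 w2, w1 ≠ w2 ∧ x ≠ w1 ∧ x ≠ w2 ∧ zH x w1 = 2 ∧ zH x w2 = 2 ∧
        (∀ v, zH w1 v ≠ 0 → v ∈ S)) → False) :
    ∃ m, Ok L zH m := by
  classical
  by_contra hno
  -- a minimal multigraph without colouring
  have hex : ∃ n : ℕ, ∃ z : W → W → ℕ, (∀ u w, z u w = z w u) ∧ (∀ u w, z u w ≤ zH u w) ∧
      (¬ ∃ m, Ok L z m) ∧ ∑ u, ∑ w, z u w = n :=
    ⟨_, zH, hs, fun _ _ => le_rfl, hno, rfl⟩
  obtain ⟨z, hzs, hzle, hzno, hzn⟩ := Nat.find_spec hex
  have hmin := fun n (hn : n < Nat.find hex) => Nat.find_min hex hn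
  have hz0 : ∀ u, z u u = 0 := fun u => Nat.le_zero.1 ((hzle u u).trans (h0 u).le)
  have hdz : ∀ u, (∑ w ∈ univ.erase u, z u w) + 1 ≤ L.card := fun u =>
    (Nat.add_le_add_right (Finset.sum_le_sum fun w _ => hzle u w) 1).trans (hd u)
  have hcol : ∀ x y, 1 ≤ z x y → ∃ m, Ok L (subE z x y) m := by
    intro x y hxy
    by_contra hno'
    have hlt : ∑ u, ∑ w, subE z x y u w < ∑ u, ∑ w, z u w := by
      apply Finset.sum_lt_sum
      · intro u _
        apply Finset.sum_le_sum
        intro w _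
        exact Nat.sub_le _ _
      · refine ⟨x, mem_univ _, ?_⟩
        apply Finset.sum_lt_sum
        · intro w _
          exact Nat.sub_le _ _
        · refine ⟨y, mem_univ _, ?_⟩
          unfold subE
          rw [if_pos (Or.inl ⟨rfl, rfl⟩)]
          omega
    refine hmin (∑ u, ∑ w, subE z x y u w) (by rw [← hzn]; exact hlt)
      ⟨subE z x y, subE_comm hzs x y, fun u w => (Nat.sub_le _ _).trans (hzle u w), hno', rfl⟩
  -- the set of the vertices with an edge
  refine hS {x | ∃ y, z x y ≠ 0} ?_ ?_ ?_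
  · by_contra hne
    rw [Set.not_nonempty_iff_eq_empty, Set.eq_empty_iff_forall_notMem] at hne
    apply hzno
    refine ⟨fun _ v => v, fun _ _ => rfl, fun u w huw => ?_⟩
    have h3 : z u w = 0 := by
      by_contra h4
      exact hne u ⟨w, h4⟩
    rw [h3, mu_eq_card, Finset.card_eq_zero, Finset.filter_eq_empty_iff]
    intro _ _ h
    exact huw h
  · rintro x ⟨y, hy⟩
    exact ⟨y, fun h => hy (Nat.le_zero.1 ((hzle x y).trans h.le))⟩
  · rintro x ⟨y, hy⟩
    have hne : x ≠ y := by
      rintro rfl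
      exact hy (hz0 x)
    have hxy : 1 ≤ z x y := Nat.one_le_iff_ne_zero.2 hy
    obtain ⟨w1, w2, h12, hx1, hx2, hz1, hz2, hf1, -⟩ := two_full hzs
      (fun u w => (hzle u w).trans (h2 u w)) hdz hzno hne hxy (hcol x y hxy)
    refine ⟨w1, w2, h12, hx1, hx2, le_antisymm (h2 _ _) (hz1 ▸ hzle _ _),
      le_antisymm (h2 _ _) (hz2 ▸ hzle _ _), ?_⟩
    intro v hv
    have hw1v : w1 ≠ v := by
      rintro rfl
      exact hv (h0 w1)
    -- the vertex `w1` is full
    have hfull : z w1 v = zH w1 v := by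
      by_contra hne'
      have hlt : z w1 v < zH w1 v := lt_of_le_of_ne (hzle _ _) hne'
      have : ∑ w ∈ univ.erase w1, z w1 w < ∑ w ∈ univ.erase w1, zH w1 w :=
        Finset.sum_lt_sum (fun w _ => hzle w1 w) ⟨v, mem_erase.2 ⟨hw1v.symm, mem_univ _⟩, hlt⟩
      have h3 := hd w1
      omega
    refine ⟨w1, ?_⟩
    rw [hzs, hfull]
    exact hv

end Pool.Agent.Run7.h680.WR
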