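import Pool.Agent.Run7.h680.WR.Orb

set_option autoImplicit false

/-!
# Edge colourings of wreath products of matchings

If `G` is a matching, the colouring of the multigraph on a component is lifted to the wreath product.
The edges over `Z` receive `2 h` further colours.
-/

namespace Pool.Agent.Run7.h680.WR

open Finset Pool.Agent.MPd14d18 Pool.Agent.K7.H15.WR Pool.Agent.X76.Wr

variable {V W : Type} [Fintype V] [Fintype W] [DecidableEq W] {G : SimpleGraph V}
  {G' : SimpleGraph W} [DecidableRel G'.Adj]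

theorem lift_one (hG : EC 1 G) {idx : W → ℕ} (hi : Good G' idx) {h D : ℕ} {w0 : W}
    (hmin : ∀ u, Cp G' w0 u → 2 * h + 1 ≤ orb G' u)
    (hD : ∀ u, orb G' u + G'.degree u ≤ D)
    {m : ℕ → W → W} (hm : Ok (range (D - 2 * h)) (zC G' idx h w0) m) :
    ∃ c : V × W → V × W → ℕ, ∀ p : V × W, Cp G' w0 p.2 → GoodAt D (wreath G G') c p := by
  classical
  -- `G` is a matching
  have hmat : ∀ x y z, G.Adj x y → G.Adj x z → y = z := by
    obtain ⟨cG, hcG⟩ := hG
    intro x y z hy hz
    by_contra hyz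
    have h1 := (hcG x y hy).2.1
    have h2 := (hcG x z hz).2.1
    exact (hcG x y hy).2.2 z hz hyz (by omega)
  have hDh : 2 * h + 1 ≤ D := by
    have h1 := hmin w0 (Cp.refl w0)
    have h2 := hD w0
    omega
  let eV : V → ℕ := fun v => (Fintype.equivFin V v).val
  have heV : Function.Injective eV := fun a b h => (Fintype.equivFin V).injective (Fin.ext h)
  obtain ⟨e, he⟩ := exists_enum
  let C : W → W → Finset ℕ := fun u w => (range (D - 2 * h)).filter fun c => m c u = w
  have hCC : ∀ u w, C u w = C w u := by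
    intro u w
    ext c
    simp only [C, mem_filter]
    constructor
    · rintro ⟨h1, h2⟩; exact ⟨h1, by rw [← h2, hm.1]⟩
    · rintro ⟨h1, h2⟩; exact ⟨h1, by rw [← h2, hm.1]⟩
  have hC : ∀ u w, u ≠ w → (C u w).card = zC G' idx h w0 u w := by
    intro u w huw
    rw [← hm.2 u w huw, mu_eq_card]
  have hC0 : ∀ u, Cp G' w0 u → 1 ≤ (C u u).card := by
    intro u hu
    have h1 := missing_add (range (D - 2 * h)) m u
    have h2 : ∑ w ∈ univ.erase u, mu (range (D - 2 * h)) m u w =
        ∑ w ∈ univ.erase u, zC G' idx h w0 u w :=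
      Finset.sum_congr rfl fun w hw => hm.2 u w (Finset.ne_of_mem_erase hw).symm
    rw [h2, card_range] at h1
    have h3 := deg_zC hi h w0 u
    have h4 := hD u
    have h6 := hmin u hu
    have h5 : (C u u).card = ((range (D - 2 * h)).filter (fun c => m c u = u)).card := rfl
    omega
  -- adjacent vertices in the fibre
  have hCA : ∀ u w, Cp G' w0 u → G'.Adj u w →
      (C u w).card = 1 + (if T G' u w ∧ ¬ Z G' idx h u w then 1 else 0) := by
    intro u w hu hadj
    rw [hC u w (G'.ne_of_adj hadj), zC, if_pos (And.intro hu (G'.ne_of_adj hadj)), if_pos hadj]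
  have hCT : ∀ u w, Cp G' w0 u → T G' u w → ¬ Z G' idx h u w → 1 ≤ (C u w).card := by
    intro u w hu hT hZ
    by_cases huw : u = w
    · subst huw; exact hC0 u hu
    · rw [hC u w huw, zC, if_pos (And.intro hu huw), if_pos (And.intro hT hZ)]
      omega
  -- the index of an edge
  let ix : V × W → V × W → ℕ := fun p r =>
    if p.1 = r.1 then (if T G' p.2 r.2 ∧ ¬ Z G' idx h p.2 r.2 then 1 else 0) else 0
  -- the colours of the circulant graph
  let f : W → W → ℕ := fun u w =>
    if sh G' idx u w ≤ h then sh G' idx u w - 1 else sh G' idx u w + 2 * h - orb G' u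
  let zc : V × W → V × W → ℕ := fun p r => if eV p.1 < eV r.1 then f p.2 r.2 else f r.2 p.2
  have hf : ∀ u w, Z G' idx h u w → Cp G' w0 u → f u w < 2 * h := by
    intro u w hZ hu
    have h1 := sh_pos hi hZ.1 hZ.2.1
    have h2 := hZ.2.2
    simp only [f]
    split_ifs <;> omega
  have hfinj : ∀ u v w, Cp G' w0 u → Z G' idx h u v → Z G' idx h u w → f u v = f u w → v = w := by
    intro u v w hu hv hw heq
    have h1 := sh_pos hi hv.1 hv.2.1
    have h2 := hv.2.2
    have h3 := sh_pos hi hw.1 hw.2.1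
    have h4 := hw.2.2
    have h5 := hmin u hu
    apply sh_inj hi hv.1 hw.1
    simp only [f] at heq
    split_ifs at heq <;> omega
  have hfinj' : ∀ u v w, Cp G' w0 u → Z G' idx h u v → Z G' idx h u w → f v u = f w u →
      v = w := by
    intro u v w hu hv hw heq
    have hv' := Z.symm hi hv
    have hw' := Z.symm hi hw
    have h1 := sh_pos hi hv'.1 hv'.2.1
    have h2 := hv'.2.2
    have h3 := sh_pos hi hw'.1 hw'.2.1
    have h4 := hw'.2.2
    have h5 := hmin u hu
    have h6 := orb_eq G' u v hv.1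
    have h7 := orb_eq G' u w hw.1
    have h8 := sh_swap hi hv.1 hv.2.1
    have h9 := sh_swap hi hw.1 hw.2.1
    apply sh_inj hi hv.1 hw.1
    simp only [f] at heq
    rw [← h6] at heq h1 h2
    rw [← h7] at heq h3 h4
    split_ifs at heq <;> omega
  -- the two kinds of edges
  have hkind : ∀ p r : V × W, Cp G' w0 p.2 → (wreath G G').Adj p r →
      ¬ (G.Adj p.1 r.1 ∧ Z G' idx h p.2 r.2) → ix p r < (C p.2 r.2).card := by
    rintro p r hp (⟨h1, h2⟩ | ⟨h1, h2⟩) hnZ
    · simp only [ix, if_pos h1]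
      rw [hCA _ _ hp h2]
      omega
    · simp only [ix, if_neg (G.ne_of_adj h1)]
      exact hCT _ _ hp h2 fun h3 => hnZ ⟨h1, h3⟩
  let c : V × W → V × W → ℕ := fun p r =>
    if G.Adj p.1 r.1 ∧ Z G' idx h p.2 r.2 then (D - 2 * h) + zc p r else e (C p.2 r.2) (ix p r)
  have hcZ : ∀ p r : V × W, G.Adj p.1 r.1 ∧ Z G' idx h p.2 r.2 → c p r = (D - 2 * h) + zc p r :=
    fun p r h1 => if_pos h1
  have hcN : ∀ p r : V × W, ¬ (G.Adj p.1 r.1 ∧ Z G' idx h p.2 r.2) →
      c p r = e (C p.2 r.2) (ix p r) := fun p r h1 => if_neg h1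
  have hcm : ∀ p r : V × W, Cp G' w0 p.2 → (wreath G G').Adj p r →
      ¬ (G.Adj p.1 r.1 ∧ Z G' idx h p.2 r.2) → c p r ∈ C p.2 r.2 := by
    intro p r hp hpr hn
    rw [hcN p r hn]
    exact (he _).1 _ (hkind p r hp hpr hn)
  have hcr : ∀ p r : V × W, Cp G' w0 p.2 → (wreath G G').Adj p r →
      ¬ (G.Adj p.1 r.1 ∧ Z G' idx h p.2 r.2) → c p r < D - 2 * h := by
    intro p r hp hpr hn
    exact mem_range.1 (mem_filter.1 (hcm p r hp hpr hn)).1
  refine ⟨c, fun p hp r hpr => ⟨?_, ?_, ?_⟩⟩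
  · -- symmetry
    by_cases hZ : G.Adj p.1 r.1 ∧ Z G' idx h p.2 r.2
    · have hZ' : G.Adj r.1 p.1 ∧ Z G' idx h r.2 p.2 := ⟨hZ.1.symm, Z.symm hi hZ.2⟩
      rw [hcZ p r hZ, hcZ r p hZ']
      congr 1
      simp only [zc]
      have h7 : eV p.1 ≠ eV r.1 := fun h => G.ne_of_adj hZ.1 (heV h)
      by_cases h8 : eV p.1 < eV r.1
      · rw [if_pos h8, if_neg (by omega)]
      · rw [if_neg h8, if_pos (by omega)]
    · have hZ' : ¬ (G.Adj r.1 p.1 ∧ Z G' idx h r.2 p.2) := fun h1 =>
        hZ ⟨h1.1.symm, Z.symm hi h1.2⟩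
      rw [hcN p r hZ, hcN r p hZ', hCC p.2 r.2]
      congr 1
      have h9 : (T G' p.2 r.2 ∧ ¬ Z G' idx h p.2 r.2) ↔ (T G' r.2 p.2 ∧ ¬ Z G' idx h r.2 p.2) :=
        ⟨fun h1 => ⟨T.symm h1.1, fun h2 => h1.2 (Z.symm hi h2)⟩,
          fun h1 => ⟨T.symm h1.1, fun h2 => h1.2 (Z.symm hi h2)⟩⟩
      simp only [ix, h9, eq_comm (a := p.1)]
  · -- range
    by_cases hZ : G.Adj p.1 r.1 ∧ Z G' idx h p.2 r.2
    · rw [hcZ p r hZ]
      have h1 : zc p r < 2 * h := by
        simp only [zc]
        split_ifs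
        · exact hf _ _ hZ.2 hp
        · exact hf _ _ (Z.symm hi hZ.2) (hp.trans (Cp.of_T hZ.2.1))
      omega
    · have := hcr p r hp hpr hZ
      omega
  · -- properness
    intro s hps hrs heq
    by_cases hZr : G.Adj p.1 r.1 ∧ Z G' idx h p.2 r.2
    · by_cases hZs : G.Adj p.1 s.1 ∧ Z G' idx h p.2 s.2
      · rw [hcZ p r hZr, hcZ p s hZs] at heq
        have h1 := hmat _ _ _ hZr.1 hZs.1
        have h2 : zc p r = zc p s := by omega
        simp only [zc, h1] at h2
        apply hrs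
        refine Prod.ext h1 ?_
        split_ifs at h2
        · exact hfinj _ _ _ hp hZr.2 hZs.2 h2
        · exact hfinj' _ _ _ hp hZr.2 hZs.2 h2
      · have h1 := hcr p s hp hps hZs
        rw [hcZ p r hZr] at heq
        omega
    · by_cases hZs : G.Adj p.1 s.1 ∧ Z G' idx h p.2 s.2
      · have h1 := hcr p r hp hpr hZr
        rw [hcZ p s hZs] at heq
        omega
      · have h1 := (mem_filter.1 (hcm p r hp hpr hZr)).2
        have h2 := (mem_filter.1 (hcm p s hp hps hZs)).2
        rw [heq, h2] at h1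
        -- the second coordinates are equal
        have h3 : ix p r = ix p s := by
          apply (he (C p.2 r.2)).2 _ (hkind p r hp hpr hZr) _
            (by rw [← h1]; exact hkind p s hp hps hZs)
          have : c p r = c p s := heq
          rw [hcN p r hZr, hcN p s hZs, h1] at this
          exact this
        by_cases h4 : p.1 = r.1
        · by_cases h5 : p.1 = s.1
          · exact hrs (Prod.ext (h4.symm.trans h5) h1.symm)
          · have h6 : G.Adj p.1 s.1 ∧ T G' p.2 s.2 := by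
              rcases hps with h | h
              · exact absurd h.1 h5
              · exact h
            have h7 : ¬ Z G' idx h p.2 s.2 := fun h8 => hZs ⟨h6.1, h8⟩
            simp only [ix, if_pos h4, if_neg h5, ← h1, if_pos (And.intro h6.2 h7)] at h3
            omega
        · have h6 : G.Adj p.1 r.1 ∧ T G' p.2 r.2 := by
            rcases hpr with h | h
            · exact absurd h.1 h4
            · exact h
          have h7 : ¬ Z G' idx h p.2 r.2 := fun h8 => hZr ⟨h6.1, h8⟩
          by_cases h5 : p.1 = s.1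
          · simp only [ix, if_neg h4, if_pos h5, h1, if_pos (And.intro h6.2 h7)] at h3
            omega
          · have h8 : G.Adj p.1 s.1 := by
              rcases hps with h | h
              · exact absurd h.1 h5
              · exact h.1
            exact hrs (Prod.ext (hmat _ _ _ h6.1 h8) h1.symm)

/-- **Wreath products of matchings.** -/
theorem main_one (hG : EC 1 G) {D : ℕ} (hD : ∀ u, orb G' u + G'.degree u ≤ D) :
    EC D (wreath G G') := by
  classical
  obtain ⟨idx, hidx1, hidx2⟩ := exists_idx G'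
  have hi : Good G' idx := ⟨hidx1, hidx2⟩
  have hex : ∀ w0 : W, ∃ c : V × W → V × W → ℕ,
      ∀ p : V × W, Cp G' w0 p.2 → GoodAt D (wreath G G') c p := by
    intro w0
    -- the smallest orbit
    obtain ⟨u1, hu1, hmin⟩ : ∃ u1, Cp G' w0 u1 ∧ ∀ u, Cp G' w0 u → orb G' u1 ≤ orb G' u := by
      obtain ⟨u1, h1, h2⟩ := Finset.exists_min_image (univ.filter fun u => Cp G' w0 u) (orb G')
        ⟨w0, mem_filter.2 ⟨mem_univ _, Cp.refl w0⟩⟩
      exact ⟨u1, (mem_filter.1 h1).2, fun u hu => h2 u (mem_filter.2 ⟨mem_univ _, hu⟩)⟩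
    have h1 := orb_pos (G' := G') u1
    obtain ⟨h, hm1, hm2⟩ : ∃ h, 2 * h + 1 ≤ orb G' u1 ∧ orb G' u1 ≤ 2 * h + 2 :=
      ⟨(orb G' u1 - 1) / 2, by omega, by omega⟩
    obtain ⟨m, hm⟩ := colour_zC hi hu1 hm1 hm2 hmin hD
    exact lift_one hG hi (fun u hu => hm1.trans (hmin u hu)) hD hm
  choose c hc using hex
  obtain ⟨rep, hrep1, hrep2⟩ : ∃ rep : W → W, (∀ w, Cp G' (rep w) w) ∧
      ∀ w w', Cp G' w w' → rep w = rep w' := by
    let st : Setoid W := ⟨Cp G', ⟨Cp.refl, fun h => h.symm, fun h h' => h.trans h'⟩⟩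
    refine ⟨fun w => (Quotient.mk st w).out, fun w => ?_, fun w w' h => ?_⟩
    · exact Quotient.exact (Quotient.out_eq (Quotient.mk st w))
    · have h1 : Quotient.mk st w = Quotient.mk st w' := Quotient.sound h
      simp only [h1]
  refine ⟨fun p r => c (rep p.2) p r, ?_⟩
  intro p r hpr
  have hpr' : Cp G' p.2 r.2 := by
    rcases hpr with ⟨-, h⟩ | ⟨-, h⟩
    · exact Cp.of_adj h
    · exact Cp.of_T h
  obtain ⟨h1, h2, h3⟩ := hc (rep p.2) p (hrep1 _) r hpr
  refine ⟨?_, h2, h3⟩
  show c (rep p.2) p r = c (rep r.2) r p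
  rw [← hrep2 _ _ hpr']
  exact h1

end Pool.Agent.Run7.h680.WR
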