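import Pool.Agent.Run7.h680.WR.Crit

set_option autoImplicit false

/-!
# The multigraph on a component

`G'` is a graph on `W`. Two vertices are in the same component if they are joined by a chain in which
consecutive vertices are adjacent or in the same orbit. On each orbit a circulant graph `Z` of degree
`2 h` is removed from the complete graph. The multigraph consisting of the edges of `G'` and of the
remaining edges inside the orbits, restricted to a component whose smallest orbit has size `2 h + 1`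
or `2 h + 2`, has an edge colouring with one more colour than its degrees.
-/

namespace Pool.Agent.Run7.h680.WR

open Finset Pool.Agent.MPd14d18 Pool.Agent.K7.H15.WR Pool.Agent.X76.Wr

section

variable {W : Type} (G' : SimpleGraph W)

/-- adjacent or in the same orbit -/
def Rl (u w : W) : Prop := G'.Adj u w ∨ T G' u w

/-- in the same component -/
def Cp (u w : W) : Prop := Relation.ReflTransGen (Rl G') u w

noncomputable instance : DecidableRel (Cp G') := fun _ _ => Classical.propDecidable _

/-- the shift from `u` to `w` -/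
noncomputable def sh (idx : W → ℕ) (u w : W) : ℕ := (idx w + orb G' u - idx u) % orb G' u

/-- the circulant graph on the orbits -/
def Z (idx : W → ℕ) (h : ℕ) (u w : W) : Prop :=
  T G' u w ∧ u ≠ w ∧ (sh G' idx u w ≤ h ∨ orb G' u ≤ sh G' idx u w + h)

noncomputable instance (idx : W → ℕ) (h : ℕ) : DecidableRel (Z G' idx h) :=
  fun _ _ => Classical.propDecidable _

/-- enumerations of the orbits -/
def Good (idx : W → ℕ) : Prop := (∀ w, idx w < orb G' w) ∧ ∀ w w', T G' w w' → idx w = idx w' → w = w'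

variable {G'}

theorem Rl.symm {u w : W} (h : Rl G' u w) : Rl G' w u := by
  rcases h with h | h
  · exact Or.inl h.symm
  · exact Or.inr (T.symm h)

theorem Cp.refl (u : W) : Cp G' u u := Relation.ReflTransGen.refl

theorem Cp.symm {u w : W} (h : Cp G' u w) : Cp G' w u := by
  induction h with
  | refl => exact Relation.ReflTransGen.refl
  | tail _ huv ih => exact Relation.ReflTransGen.head (Rl.symm huv) ih

theorem Cp.trans {u v w : W} (h : Cp G' u v) (h' : Cp G' v w) : Cp G' u w :=
  Relation.ReflTransGen.trans h h'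

theorem Cp.of_adj {u w : W} (h : G'.Adj u w) : Cp G' u w := Relation.ReflTransGen.single (Or.inl h)

theorem Cp.of_T {u w : W} (h : T G' u w) : Cp G' u w := Relation.ReflTransGen.single (Or.inr h)

theorem sh_eq {idx : W → ℕ} (hi : Good G' idx) {u w : W} (hT : T G' u w) :
    sh G' idx u w = if idx u ≤ idx w then idx w - idx u else idx w + orb G' u - idx u := by
  have h1 := hi.1 u
  have h2 := hi.1 w
  rw [← orb_eq G' u w hT] at h2
  exact mod_aux _ _ _ h1 h2

theorem sh_pos {idx : W → ℕ} (hi : Good G' idx) {u w : W} (hT : T G' u w) (hne : u ≠ w) :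
    1 ≤ sh G' idx u w ∧ sh G' idx u w < orb G' u := by
  have h1 := hi.1 u
  have h2 := hi.1 w
  rw [← orb_eq G' u w hT] at h2
  have h3 : idx u ≠ idx w := fun h => hne (hi.2 u w hT h)
  rw [sh_eq hi hT]
  split_ifs <;> omega

theorem sh_swap {idx : W → ℕ} (hi : Good G' idx) {u w : W} (hT : T G' u w) (hne : u ≠ w) :
    sh G' idx u w + sh G' idx w u = orb G' u := by
  have h1 := hi.1 u
  have h2 := hi.1 w
  have h4 := orb_eq G' u w hT
  rw [← h4] at h2
  have h3 : idx u ≠ idx w := fun h => hne (hi.2 u w hT h)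
  rw [sh_eq hi hT, sh_eq hi (T.symm hT), ← h4]
  split_ifs <;> omega

theorem sh_inj {idx : W → ℕ} (hi : Good G' idx) {u v w : W} (hv : T G' u v) (hw : T G' u w)
    (h : sh G' idx u v = sh G' idx u w) : v = w := by
  have h1 := hi.1 u
  have h2 := hi.1 v
  have h3 := hi.1 w
  rw [← orb_eq G' u v hv] at h2
  rw [← orb_eq G' u w hw] at h3
  rw [sh_eq hi hv, sh_eq hi hw] at h
  apply hi.2 v w (T.trans (T.symm hv) hw)
  split_ifs at h <;> omega

theorem Z.symm {idx : W → ℕ} (hi : Good G' idx) {h : ℕ} {u w : W} (hZ : Z G' idx h u w) :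
    Z G' idx h w u := by
  obtain ⟨h1, h2, h3⟩ := hZ
  have h4 := sh_swap hi h1 h2
  have h5 := orb_eq G' u w h1
  refine ⟨T.symm h1, h2.symm, ?_⟩
  rw [← h5]
  omega

end

section

variable {W : Type} [Fintype W] [DecidableEq W] {G' : SimpleGraph W} [DecidableRel G'.Adj]

omit [DecidableRel G'.Adj] in
/-- the number of the vertices in the orbit which are not joined by `Z` -/
theorem card_notZ {idx : W → ℕ} (hi : Good G' idx) (h : ℕ) (u : W) :
    (univ.filter fun w => T G' u w ∧ u ≠ w ∧ ¬ Z G' idx h u w).card ≤ orb G' u - 1 - 2 * h := by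
  have h1 : (univ.filter fun w => T G' u w ∧ u ≠ w ∧ ¬ Z G' idx h u w).card ≤
      (Finset.Ioo h (orb G' u - h)).card := by
    apply Finset.card_le_card_of_injOn (sh G' idx u)
    · intro w hw
      rw [mem_coe, mem_filter] at hw
      obtain ⟨-, h2, h3, h4⟩ := hw
      rw [mem_coe, mem_Ioo]
      have h5 := sh_pos hi h2 h3
      have h6 : ¬ (sh G' idx u w ≤ h ∨ orb G' u ≤ sh G' idx u w + h) := fun h7 => h4 ⟨h2, h3, h7⟩
      omega
    · intro a ha b hb hab
      rw [mem_coe, mem_filter] at ha hb
      exact sh_inj hi ha.2.1 hb.2.1 hab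
  refine h1.trans ?_
  rw [Nat.card_Ioo]
  omega

variable (G') in
/-- the multigraph on the component of `w0` -/
noncomputable def zC (idx : W → ℕ) (h : ℕ) (w0 : W) (u w : W) : ℕ :=
  if Cp G' w0 u ∧ u ≠ w then
    (if G'.Adj u w then 1 else 0) + (if T G' u w ∧ ¬ Z G' idx h u w then 1 else 0) else 0

omit [Fintype W] in
theorem zC_comm {idx : W → ℕ} (hi : Good G' idx) (h : ℕ) (w0 u w : W) :
    zC G' idx h w0 u w = zC G' idx h w0 w u := by
  have hZ : Z G' idx h u w ↔ Z G' idx h w u := ⟨fun h => h.symm hi, fun h => h.symm hi⟩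
  have hT : T G' u w ↔ T G' w u := ⟨fun h => T.symm h, fun h => T.symm h⟩
  unfold zC
  by_cases huw : u = w
  · subst huw; rfl
  by_cases hadj : G'.Adj u w
  · have hC : Cp G' w0 u ↔ Cp G' w0 w :=
      ⟨fun h => h.trans (Cp.of_adj hadj), fun h => h.trans (Cp.of_adj hadj.symm)⟩
    simp only [hC, hZ, hT, G'.adj_comm u w, ne_comm (a := u)]
  · by_cases hTT : T G' u w
    · have hC : Cp G' w0 u ↔ Cp G' w0 w :=
        ⟨fun h => h.trans (Cp.of_T hTT), fun h => h.trans (Cp.of_T (T.symm hTT))⟩
      simp only [hC, hZ, hT, G'.adj_comm u w, ne_comm (a := u)]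
    · have hadj' : ¬ G'.Adj w u := fun h => hadj h.symm
      have hTT' : ¬ T G' w u := fun h => hTT (T.symm h)
      simp [hadj, hTT, hadj', hTT']

omit [Fintype W] in
theorem zC_le (idx : W → ℕ) (h : ℕ) (w0 u w : W) : zC G' idx h w0 u w ≤ 2 := by
  unfold zC
  split_ifs <;> omega

theorem deg_zC {idx : W → ℕ} (hi : Good G' idx) (h : ℕ) (w0 u : W) :
    ∑ w ∈ univ.erase u, zC G' idx h w0 u w ≤ G'.degree u + (orb G' u - 1 - 2 * h) := by
  have h1 : ∀ w ∈ univ.erase u, zC G' idx h w0 u w ≤
      (if G'.Adj u w then 1 else 0) + (if T G' u w ∧ u ≠ w ∧ ¬ Z G' idx h u w then 1 else 0) := by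
    intro w hw
    have hne := (Finset.ne_of_mem_erase hw).symm
    unfold zC
    by_cases hC : Cp G' w0 u
    · simp [hC, hne]
    · simp [hC]
  refine (Finset.sum_le_sum h1).trans ?_
  rw [Finset.sum_add_distrib, ← Finset.card_filter, ← Finset.card_filter]
  refine Nat.add_le_add ?_ ?_
  · rw [← SimpleGraph.card_neighborFinset_eq_degree]
    apply Finset.card_le_card
    intro w hw
    rw [mem_filter] at hw
    rw [SimpleGraph.mem_neighborFinset]
    exact hw.2
  · refine le_trans (Finset.card_le_card ?_) (card_notZ hi h u)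
    intro w hw
    rw [mem_filter] at hw ⊢
    exact ⟨mem_univ _, hw.2⟩

/-- **The colouring of the multigraph.** -/
theorem colour_zC {idx : W → ℕ} (hi : Good G' idx) {h D : ℕ} {w0 u1 : W}
    (hu1 : Cp G' w0 u1) (hm1 : 2 * h + 1 ≤ orb G' u1) (hm2 : orb G' u1 ≤ 2 * h + 2)
    (hmin : ∀ u, Cp G' w0 u → orb G' u1 ≤ orb G' u)
    (hD : ∀ u, orb G' u + G'.degree u ≤ D) :
    ∃ m, Ok (range (D - 2 * h)) (zC G' idx h w0) m := by
  classical
  have hDh : 2 * h + 1 ≤ D := by
    have := hD u1
    omega
  refine crit (zC_comm hi h w0) (fun u => ?_) (zC_le idx h w0) (fun u => ?_) ?_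
  · unfold zC
    simp
  · rw [card_range]
    by_cases hC : Cp G' w0 u
    · have h1 := deg_zC hi h w0 u
      have h2 := hD u
      have h3 := hmin u hC
      omega
    · rw [Finset.sum_eq_zero]
      · omega
      · intro w _
        unfold zC
        simp [hC]
  · intro S hne hS1 hS2
    have hSC : ∀ x ∈ S, Cp G' w0 x := by
      intro x hx
      obtain ⟨y, hy⟩ := hS1 x hx
      by_contra hC
      apply hy
      unfold zC
      simp [hC]
    have hdouble : ∀ x w, zC G' idx h w0 x w = 2 → G'.Adj x w ∧ T G' x w ∧ x ≠ w ∧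
        ¬ Z G' idx h x w := by
      intro x w hxw
      unfold zC at hxw
      split_ifs at hxw with h1 h2 h3
      · exact ⟨h2, h3.1, h1.2, h3.2⟩
      all_goals omega
    -- all orbits are met
    obtain ⟨x0, hx0⟩ := hne
    have hall : ∀ u, Cp G' x0 u → ∃ x ∈ S, T G' u x := by
      intro u hu
      induction hu with
      | refl => exact ⟨x0, hx0, T.refl _⟩
      | @tail u v _ huv ih =>
        obtain ⟨x, hx, hTx⟩ := ih
        rcases huv with huv | huv
        · obtain ⟨w1, w2, -, -, -, hz1, -, hfull⟩ := hS2 x hx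
          obtain ⟨-, h2, -, -⟩ := hdouble x w1 hz1
          obtain ⟨φ, hφ⟩ := T.trans hTx h2
          have hadj : G'.Adj w1 (φ v) := by
            rw [← hφ]
            exact T.adj φ huv
          refine ⟨φ v, hfull _ ?_, T.iso φ v⟩
          unfold zC
          have hC : Cp G' w0 w1 := (hSC x hx).trans (Cp.of_T h2)
          rw [if_pos ⟨hC, G'.ne_of_adj hadj⟩, if_pos hadj]
          omega
        · exact ⟨x, hx, T.trans (T.symm huv) hTx⟩
    obtain ⟨x, hx, hTx⟩ := hall u1 ((hSC x0 hx0).symm.trans hu1)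
    obtain ⟨w1, w2, h12, hx1, hx2, hz1, hz2, -⟩ := hS2 x hx
    have h1 := hdouble x w1 hz1
    have h2 := hdouble x w2 hz2
    have h3 := card_notZ hi h x
    have h4 := orb_eq G' u1 x hTx
    have h5 : 1 < (univ.filter fun w => T G' x w ∧ x ≠ w ∧ ¬ Z G' idx h x w).card := by
      rw [Finset.one_lt_card]
      refine ⟨w1, ?_, w2, ?_, h12⟩
      · rw [mem_filter]; exact ⟨mem_univ _, h1.2⟩
      · rw [mem_filter]; exact ⟨mem_univ _, h2.2⟩
    omega

end

end Pool.Agent.Run7.h680.WR
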